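import Pool.Agent.V5helper8.EH.HomD

set_option autoImplicit false

/-!
# Graphs of groups whose edge isomorphisms extend to quotients

Let `C` be a class of groups with the closure properties `ClosedE` (the groups which satisfy the
K-theoretic Farrell-Jones conjecture with coefficients are such a class).

Consider a graph of groups: vertex groups `G v` and, for every edge `x` from `o x` to `t x`, an edge
group `S x` with injective homomorphisms `i x`, `j x` to `G (o x)`, `G (t x)`.  Suppose that there are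
homomorphisms `e v : G v → G' v` and that the edge isomorphisms and their inverses extend to
homomorphisms `α x : G' (o x) → G' (t x)` and `β x : G' (t x) → G' (o x)`, which need not be injective
or inverse to each other.  If the groups `G v`, `G' v` and the mapping tori of the composites along the
closed cyclically reduced paths are in `C`, and if the `e v` are injective on the edge groups, then the
path group of the graph of groups (and hence its fundamental group) is in `C`.

If the metabelian groups are in `C`, then it is enough that the kernels of the `e v` have chains of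
normal subgroups of `G v` with abelian quotients which are compatible with the edge isomorphisms and
which end with subgroups which meet the edge groups trivially.

The proof uses the group of functions from the free group on the set of edges to a free product of
the groups `G' v` which are eventually compatible with `α` and `β` in all directions, and, for the
chains, the actions of iterated HNN extensions of the quotients on their trees, and the first homology
of the kernels.
-/

namespace Pool.Agent.Results.MP_28303a_al.ExtendableEdges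

open Pool.Agent.Y110.FJ (ClosedE)
open Pool.Agent.V5helper8.EH (Along)

/-- the free product `M * ℤ` -/
def FreeZ (M : Type) [Group M] : Type := Monoid.Coprod M (Multiplicative ℤ)

instance (M : Type) [Group M] : Group (FreeZ M) :=
  inferInstanceAs (Group (Monoid.Coprod M (Multiplicative ℤ)))

/-- the factor `M` -/
def FreeZ.of {M : Type} [Group M] : M →* FreeZ M := Monoid.Coprod.inl

/-- the generator of the factor `ℤ` -/
def FreeZ.t (M : Type) [Group M] : FreeZ M := Monoid.Coprod.inr (Multiplicative.ofAdd 1)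

/-- the relators `t m t⁻¹ (ψ m)⁻¹` -/
def torusRel {M : Type} [Group M] (ψ : M →* M) : Set (FreeZ M) :=
  {r | ∃ m : M, r = FreeZ.t M * FreeZ.of m * (FreeZ.t M)⁻¹ * (FreeZ.of (ψ m))⁻¹}

/-- the mapping torus `⟨M, t | t m t⁻¹ = ψ m⟩` -/
def Torus {M : Type} [Group M] (ψ : M →* M) : Type :=
  FreeZ M ⧸ Subgroup.normalClosure (torusRel ψ)

instance {M : Type} [Group M] (ψ : M →* M) : Group (Torus ψ) :=
  QuotientGroup.Quotient.group _

/-- a graph of groups: vertex groups `G v`, edges `x` from `o x` to `t x`, edge groups `S x`, and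
injective homomorphisms `i x : S x → G (o x)`, `j x : S x → G (t x)` -/
structure Gog where
  V : Type
  E : Type
  o : E → V
  t : E → V
  G : V → Type
  S : E → Type
  [grp : ∀ v, Group (G v)]
  [grpS : ∀ x, Group (S x)]
  i : ∀ x, S x →* G (o x)
  j : ∀ x, S x →* G (t x)
  i_inj : ∀ x, Function.Injective (i x)
  j_inj : ∀ x, Function.Injective (j x)

attribute [instance] Gog.grp Gog.grpS

/-- the free product of the vertex groups and the free group on the edges -/
def FreePr (Γ : Gog) : Type := Monoid.Coprod (Monoid.CoprodI Γ.G) (FreeGroup Γ.E)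

instance (Γ : Gog) : Group (FreePr Γ) :=
  inferInstanceAs (Group (Monoid.Coprod (Monoid.CoprodI Γ.G) (FreeGroup Γ.E)))

/-- the vertex groups -/
def FreePr.ofV (Γ : Gog) (v : Γ.V) : Γ.G v →* FreePr Γ :=
  (Monoid.Coprod.inl : Monoid.CoprodI Γ.G →* _).comp Monoid.CoprodI.of

/-- the edges -/
def FreePr.ofE (Γ : Gog) (x : Γ.E) : FreePr Γ := Monoid.Coprod.inr (FreeGroup.of x)

/-- the relators `x i(s) x⁻¹ j(s)⁻¹` -/
def pathRel (Γ : Gog) : Set (FreePr Γ) :=
  {r | ∃ (x : Γ.E) (s : Γ.S x), r = FreePr.ofE Γ x * FreePr.ofV Γ (Γ.o x) (Γ.i x s) *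
    (FreePr.ofE Γ x)⁻¹ * (FreePr.ofV Γ (Γ.t x) (Γ.j x s))⁻¹}

/-- the path group of a graph of groups: it is generated by the vertex groups and the edges `x`, with
the relations `x i(s) x⁻¹ = j(s)` for `s` in the edge group `S x` -/
def PathGroup (Γ : Gog) : Type :=
  FreePr Γ ⧸ Subgroup.normalClosure (pathRel Γ)

instance (Γ : Gog) : Group (PathGroup Γ) :=
  QuotientGroup.Quotient.group _

/-- homomorphisms `e v` to groups `G' v`, and homomorphisms `α x`, `β x` of the groups `G' v` which
extend the edge isomorphisms and their inverses -/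
structure Extends (Γ : Gog) where
  G' : Γ.V → Type
  [grp : ∀ v, Group (G' v)]
  e : ∀ v, Γ.G v →* G' v
  α : ∀ x, G' (Γ.o x) →* G' (Γ.t x)
  β : ∀ x, G' (Γ.t x) →* G' (Γ.o x)
  fwd : ∀ x, (α x).comp ((e (Γ.o x)).comp (Γ.i x)) = (e (Γ.t x)).comp (Γ.j x)
  bwd : ∀ x, (β x).comp ((e (Γ.t x)).comp (Γ.j x)) = (e (Γ.o x)).comp (Γ.i x)

attribute [instance] Extends.grp

/-- `e` is injective on the edge groups -/
def InjOnEdges {Γ : Gog} (X : Extends Γ) : Prop :=
  ∀ x, Function.Injective ((X.e (Γ.o x)).comp (Γ.i x))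

/-- chains of normal subgroups `F v 0 ≥ F v 1 ≥ ...` of the vertex groups with abelian quotients
`F v k / F v (k + 1)`, where `F v 0` is the kernel of `e v`, compatible with the edge isomorphisms -/
structure Chain {Γ : Gog} (X : Extends Γ) where
  F : ∀ v, ℕ → Subgroup (Γ.G v)
  normal : ∀ v k, (F v k).Normal
  zero : ∀ v, F v 0 = (X.e v).ker
  anti : ∀ v k, F v (k + 1) ≤ F v k
  comm : ∀ v k, ⁅F v k, F v k⁆ ≤ F v (k + 1)
  edge : ∀ x k s, Γ.i x s ∈ F (Γ.o x) k ↔ Γ.j x s ∈ F (Γ.t x) k

/-- some term of the chain meets the edge groups trivially -/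
def Chain.Leaves {Γ : Gog} {X : Extends Γ} (K : Chain X) : Prop :=
  ∃ n : ℕ, ∀ x s, Γ.i x s ∈ K.F (Γ.o x) n → s = 1

/-- the mapping tori of the composites along the closed cyclically reduced paths are in the class -/
def ToriIn (C : ∀ (G : Type) [Group G], Prop) {Γ : Gog} (X : Extends Γ) : Prop :=
  ∀ (L : List (Γ.E × Bool)) (v : Γ.V) (ψ : X.G' v →* X.G' v), Along X.α X.β L v v ψ → L ≠ [] →
    FreeGroup.IsCyclicallyReduced L → C (Torus ψ)

/-- the composites along the reduced paths of some length are trivial -/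
def Nilp {Γ : Gog} (X : Extends Γ) : Prop :=
  ∃ n : ℕ, ∀ (L : List (Γ.E × Bool)) (u v : Γ.V) (ψ : X.G' u →* X.G' v), Along X.α X.β L u v ψ →
    FreeGroup.IsReduced L → L.length = n → ∀ g, ψ g = 1

/-- (1) `e` is injective on the edge groups -/
def HasGraphs (C : ∀ (G : Type) [Group G], Prop) : Prop :=
  ∀ (Γ : Gog) (X : Extends Γ), (∀ v, C (Γ.G v)) → (∀ v, C (X.G' v)) → InjOnEdges X →
    ToriIn C X ∨ Nilp X → C (PathGroup Γ)

/-- (2) the kernels of `e` have compatible chains which leave the edge groups -/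
def HasChains (C : ∀ (G : Type) [Group G], Prop) : Prop :=
  (∀ (G : Type) [Group G], derivedSeries G 2 = ⊥ → C G) →
  ∀ (Γ : Gog) (X : Extends Γ) (K : Chain X), (∀ v, C (Γ.G v)) → (∀ v, C (X.G' v)) → K.Leaves →
    ToriIn C X ∨ Nilp X → C (PathGroup Γ)

/-- (3) the groups `G' v` are solvable -/
def HasSolvableGraphs (C : ∀ (G : Type) [Group G], Prop) : Prop :=
  (∀ (G : Type) [Group G], derivedSeries G 2 = ⊥ → C G) →
  ∀ (Γ : Gog) (X : Extends Γ) (K : Chain X), (∀ v, C (Γ.G v)) → (∀ v, Group.IsSolvable (X.G' v)) →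
    K.Leaves → C (PathGroup Γ)

/-- (4) mapping tori in the class: every element is killed by a power of `ψ`; a power of `ψ` agrees
with another power up to an inner automorphism; the order of the factors of a composite does not
matter; powers -/
def HasTori (C : ∀ (G : Type) [Group G], Prop) : Prop :=
  (∀ (M : Type) [Group M] (ψ : M →* M), (∀ m, ∃ n : ℕ, ψ^[n] m = 1) → C (Torus ψ)) ∧
  (∀ (M : Type) [Group M] (ψ : M →* M) (n k : ℕ) (c : M), C M → 0 < k →
    (∀ m, ψ^[n + k] m = ψ^[n] (c * m * c⁻¹)) → C (Torus ψ)) ∧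
  (∀ (M N : Type) [Group M] [Group N] (i : N →* M) (π : M →* N), C (Torus (π.comp i)) →
    C (Torus (i.comp π))) ∧
  (∀ (M : Type) [Group M] (ψ χ : M →* M) (n : ℕ), C (Torus ψ) → 0 < n → (∀ m, χ m = ψ^[n] m) →
    C (Torus χ))

theorem torus_of {C : ∀ (G : Type) [Group G], Prop} (hC : ClosedE C) {M : Type} [Group M]
    {ψ : M →* M} (h : Pool.Agent.V5helper8.EH.HasTorus C ψ) : C (Torus ψ) :=
  Pool.Agent.V5helper8.EH.to_MT hC.base ψ h

theorem of_torus {C : ∀ (G : Type) [Group G], Prop} {M : Type} [Group M]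
    {ψ : M →* M} (h : C (Torus ψ)) : Pool.Agent.V5helper8.EH.HasTorus C ψ :=
  Pool.Agent.V5helper8.EH.of_MT ψ h

theorem main {C : ∀ (G : Type) [Group G], Prop} (hC : ClosedE C) (Γ : Gog) (X : Extends Γ)
    (hG : ∀ v, C (Γ.G v)) (hG' : ∀ v, C (X.G' v)) (hinj : InjOnEdges X)
    (hT : ∀ (L : List (Γ.E × Bool)) (v : Γ.V) (ψ : X.G' v →* X.G' v), Along X.α X.β L v v ψ →
      L ≠ [] → FreeGroup.IsCyclicallyReduced L → Pool.Agent.V5helper8.EH.HasTorus C ψ) :
    C (PathGroup Γ) := by
  let fi := fun x => MonoidHom.ofInjective (Γ.i_inj x)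
  let fj := fun x => MonoidHom.ofInjective (Γ.j_inj x)
  have hfi : ∀ x (a : (Γ.i x).range), ∃ s, a = fi x s := fun x a =>
    ⟨(fi x).symm a, (MulEquiv.apply_symm_apply _ a).symm⟩
  have hfj : ∀ x (b : (Γ.j x).range), ∃ s, b = fj x s := fun x b =>
    ⟨(fj x).symm b, (MulEquiv.apply_symm_apply _ b).symm⟩
  have h0 := Pool.Agent.V5helper8.EH.main_gog hC (fun x => (Γ.i x).range)
    (fun x => (Γ.j x).range) (fun x => (fi x).symm.trans (fj x)) X.e X.α X.β hG hG' ?_ ?_ ?_ hT
  · refine Pool.Agent.V5helper8.EH.C_normalClosure ?_ h0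
    ext r
    constructor
    · rintro ⟨x, a, rfl⟩
      obtain ⟨s, rfl⟩ := hfi x a
      refine ⟨x, s, ?_⟩
      have h1 : ((fi x).symm.trans (fj x)) (fi x s) = fj x s := by
        rw [MulEquiv.trans_apply, MulEquiv.symm_apply_apply]
      simp only [h1]
      rfl
    · rintro ⟨x, s, rfl⟩
      refine ⟨x, fi x s, ?_⟩
      have h1 : ((fi x).symm.trans (fj x)) (fi x s) = fj x s := by
        rw [MulEquiv.trans_apply, MulEquiv.symm_apply_apply]
      simp only [h1]
      rfl
  · intro x a
    obtain ⟨s, rfl⟩ := hfi x a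
    rw [MulEquiv.trans_apply, MulEquiv.symm_apply_apply]
    exact DFunLike.congr_fun (X.fwd x) s
  · intro x b
    obtain ⟨s, rfl⟩ := hfj x b
    rw [MulEquiv.symm_trans_apply, MulEquiv.symm_symm, MulEquiv.symm_apply_apply]
    exact DFunLike.congr_fun (X.bwd x) s
  · rintro x _ ⟨s, rfl⟩ h
    rw [hinj x (a₁ := s) (a₂ := 1) (h.trans (map_one _).symm), map_one]

theorem chains {C : ∀ (G : Type) [Group G], Prop} (hC : ClosedE C)
    (hM2 : ∀ (G : Type) [Group G], derivedSeries G 2 = ⊥ → C G) (Γ : Gog) (X : Extends Γ)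
    (K : Chain X) (hG : ∀ v, C (Γ.G v)) (hG' : ∀ v, C (X.G' v)) (hK : K.Leaves)
    (hT : ∀ (L : List (Γ.E × Bool)) (v : Γ.V) (ψ : X.G' v →* X.G' v), Along X.α X.β L v v ψ →
      L ≠ [] → FreeGroup.IsCyclicallyReduced L → Pool.Agent.V5helper8.EH.HasTorus C ψ) :
    C (PathGroup Γ) := by
  obtain ⟨n, hn⟩ := hK
  exact Pool.Agent.V5helper8.EH.chain hC hM2 Γ.i Γ.j
    (fun x => (MonoidHom.ker_eq_bot_iff _).2 (Γ.i_inj x))
    (fun x => (MonoidHom.ker_eq_bot_iff _).2 (Γ.j_inj x)) X.e X.α X.β hG hG'
    (fun x s => DFunLike.congr_fun (X.fwd x) s) (fun x s => DFunLike.congr_fun (X.bwd x) s)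
    K.F K.normal K.zero K.anti K.comm K.edge n hn hT

/-- **graphs of groups whose edge isomorphisms extend to quotients** -/
theorem result (C : ∀ (G : Type) [Group G], Prop) (hC : ClosedE C) :
    HasGraphs C ∧ HasChains C ∧ HasSolvableGraphs C ∧ HasTori C := by
  have hor : ∀ (Γ : Gog) (X : Extends Γ), ToriIn C X ∨ Nilp X →
      ∀ (L : List (Γ.E × Bool)) (v : Γ.V) (ψ : X.G' v →* X.G' v), Along X.α X.β L v v ψ →
        L ≠ [] → FreeGroup.IsCyclicallyReduced L → Pool.Agent.V5helper8.EH.HasTorus C ψ := by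
    rintro Γ X (hT | ⟨n, hn⟩) L v ψ h1 h2 h3
    · exact of_torus (hT L v ψ h1 h2 h3)
    · exact Pool.Agent.V5helper8.EH.nil_tori hC.base hn h1 h2 h3
  refine ⟨?_, ?_, ?_, ?_, ?_, ?_, ?_⟩
  · intro Γ X hG hG' hinj hT
    exact main hC Γ X hG hG' hinj (hor Γ X hT)
  · intro hM2 Γ X K hG hG' hK hT
    exact chains hC hM2 Γ X K hG hG' hK (hor Γ X hT)
  · intro hM2 Γ X K hG hG' hK
    have hS := Pool.Agent.V5helper8.EH.solvable_mem hC hM2
    exact chains hC hM2 Γ X K hG (fun v => hS _ (hG' v)) hK fun L v ψ _ _ _ =>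
      Pool.Agent.V5helper8.EH.of_solvable hS (hG' v) ψ
  · intro M _ ψ h
    exact torus_of hC (Pool.Agent.V5helper8.EH.of_nil hC.base ψ h)
  · intro M _ ψ n k c hM hk h
    exact torus_of hC (Pool.Agent.V5helper8.EH.of_per hC.base hM ψ n k hk c h)
  · intro M N _ _ i π h
    exact torus_of hC (Pool.Agent.V5helper8.EH.of_restrict i π (of_torus h))
  · intro M _ ψ χ n h hn hχ
    exact torus_of hC (Pool.Agent.V5helper8.EH.torus_pow (of_torus h) n hn hχ)

end Pool.Agent.Results.MP_28303a_al.ExtendableEdges
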