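import Pool.Agent.V5helper31.UB.NegMain

/-!
# Negative `K`-groups of group rings: characteristic zero, finite fields and uniform splittings

For a field `k` and a group `G` every element of `K_{-1}(k[G])` is represented by an idempotent matrix
`e` over `k[ℤ × G] = k[G][t, t⁻¹]`, and `e` represents `0` if and only if the module `k[G][t, t⁻¹]^n e`
is, up to free summands, isomorphic to the sum of a module which comes from `k[G][t]` and one which
comes from `k[G][t⁻¹]`. Let `C` be a class of groups which is closed under subgroups and direct products
and contains `ℤ`, for example the class of all torsion-free groups.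

1. If `K_{-m}(k[G]) = 0` for all `m ≥ 1`, all `G` in `C` and all fields `k` of characteristic `0`, then
   the same holds for matrices of bounded complexity in large characteristic, with splittings of
   bounded size, and conversely.
2. The statement for all algebraically closed fields `k` of characteristic `0` is equivalent to a
   uniform statement over the field of algebraic numbers, and to the same uniform statement over the
   algebraic closures of the fields with `p` elements, for large `p`.
3. The statement for all algebraically closed fields of characteristic `p` is equivalent to a uniform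
   statement over the algebraic closure of the field with `p` elements.

Idea. A matrix with few terms over `k[ℤ × G]` is the image of a matrix over `k[ℤ × Γ]` for one of
finitely many groups `Γ` of the class. If there were no bound for one of these `Γ`, an ultraproduct of
counterexamples would be a counterexample over a field of characteristic `0`. For a fixed group `G` and
fixed positions of the terms the existence of a splitting of bounded size is a first-order
property of the coefficients, so the Lefschetz principle applies.
-/

set_option autoImplicit false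

namespace Pool.Agent.Results.MP_28303a_al.LefschetzPrinciple

open MonoidAlgebra Pool.Agent.Y75.NK
open scoped Pointwise

section defs

variable {k : Type} [Field k] {G : Type} [Group G] {n : ℕ} {ι κ : Type}

/-- the group ring `k[ℤ × G] = k[G][t, t⁻¹]`; `(i, g)` stands for `t ^ i g` -/
abbrev LG (k : Type) [Semiring k] (G : Type) : Type := MonoidAlgebra k (Multiplicative ℤ × G)

/-- the elements `t ^ i g` which occur in `A` -/
def occ (A : Matrix ι κ (LG k G)) : Set (Multiplicative ℤ × G) :=
  {p | ∃ i j, (A i j).coeff p ≠ 0}

/-- at most `s` terms in every entry, and exponents of `t` between `-s` and `s` -/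
def Complexity (s : ℕ) (A : Matrix ι κ (LG k G)) : Prop :=
  (∀ i j, (A i j).coeff.support.card ≤ s) ∧ ∀ p ∈ occ A, |Multiplicative.toAdd p.1| ≤ s

/-- the elements `t ^ i g` with `|i| ≤ N` and `g` a product of at most `N` elements of `S` and
inverses of elements of `S` -/
def box (S : Set G) (N : ℕ) : Set (Multiplicative ℤ × G) :=
  {p | |Multiplicative.toAdd p.1| ≤ N ∧ p.2 ∈ (insert 1 (S ∪ S⁻¹)) ^ N}

/-- The idempotent matrix `e` splits within `N`: for some idempotent matrices `g` over `k[G][t]` and
`h` over `k[G][t⁻¹]` the block matrices with blocks `e`, `1` and `g`, `h` are equivalent, `x y = e ⊕ 1`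
and `y x = g ⊕ h`, where all sizes are at most `N` and all `t ^ i γ` which occur satisfy `|i| ≤ N`, and
`γ` is a product of at most `N` group elements which occur in `e` and inverses of such. -/
def SplitsWithin (N : ℕ) (e : Matrix (Fin n) (Fin n) (LG k G)) : Prop :=
  ∃ r ≤ N, ∃ a ≤ N, ∃ b ≤ N,
    ∃ (g : Matrix (Fin a) (Fin a) (LG k G)) (h : Matrix (Fin b) (Fin b) (LG k G))
    (x : Matrix (Fin n ⊕ Fin r) (Fin a ⊕ Fin b) (LG k G))
    (y : Matrix (Fin a ⊕ Fin b) (Fin n ⊕ Fin r) (LG k G)),
    (g * g = g ∧ h * h = h ∧
    x * y = Matrix.fromBlocks e 0 0 1 ∧ y * x = Matrix.fromBlocks g 0 0 h) ∧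
    ((∀ p ∈ occ g, 0 ≤ Multiplicative.toAdd p.1) ∧ ∀ p ∈ occ h, Multiplicative.toAdd p.1 ≤ 0) ∧
    occ g ⊆ box (Prod.snd '' occ e) N ∧ occ h ⊆ box (Prod.snd '' occ e) N ∧
    occ x ⊆ box (Prod.snd '' occ e) N ∧ occ y ⊆ box (Prod.snd '' occ e) N

end defs

/-- A class of groups closed under subgroups and direct products which contains `ℤ`. -/
def Closed (C : ∀ (G : Type) [Group G], Prop) : Prop :=
  (∀ (G H : Type) [Group G] [Group H] (f : H →* G), Function.Injective f → C G → C H) ∧
  (∀ (ι : Type) (G : ι → Type) [∀ i, Group (G i)], (∀ i, C (G i)) → C (∀ i, G i)) ∧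
  C (Multiplicative ℤ)

section conj

variable (C : ∀ (G : Type) [Group G], Prop)

/-- `K_{-m}(k[G]) = 0` for all groups `G` of the class and all `m ≥ 1` -/
def NegKVanish (k : Type) [Field k] : Prop :=
  ∀ (G : Type) [Group G], C G → ∀ m : ℕ, 1 ≤ m →
    Subsingleton ((Kneg m).obj (RingCat.of (MonoidAlgebra k G)))

/-- For all groups `G` of the class, all idempotent `n × n` matrices of complexity at most `s` over
`k[G][t, t⁻¹]` split within `N`. -/
def Bound (n s N : ℕ) (k : Type) [Field k] : Prop :=
  ∀ (G : Type) [Group G], C G → ∀ e : Matrix (Fin n) (Fin n) (LG k G), e * e = e →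
    Complexity s e → SplitsWithin N e

end conj

lemma closed_torsionFree :
    Closed fun (G : Type) [Group G] => ∀ (g : G) (n : ℕ), 0 < n → g ^ n = 1 → g = 1 := by
  refine ⟨?_, ?_, ?_⟩
  · intro G H _ _ f hf hG g n hn hg
    apply hf
    rw [map_one]
    exact hG (f g) n hn (by rw [← map_pow, hg, map_one])
  · intro ι G _ hG g n hn hg
    funext i
    exact hG i (g i) n hn (congrFun hg i)
  · intro g n hn hg
    have h1 : n • g.toAdd = 0 := congrArg Multiplicative.toAdd hg
    rw [smul_eq_zero] at h1
    rcases h1 with h1 | h1
    · omega
    · exact congrArg Multiplicative.ofAdd h1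

/-- **Lefschetz principle for the negative `K`-groups of group rings.** Let `C` be a class of groups
closed under subgroups and direct products which contains `ℤ` (for example all torsion-free groups).

1. `K_{-m}(k[G]) = 0` for all fields `k` of characteristic `0`, all `G` in `C` and all `m ≥ 1` if and
   only if for all `n`, `s` there is `N` such that for all fields `k` with `char k = 0` or
   `char k ≥ N` and all `G` in `C` every idempotent `n × n` matrix of complexity at most `s` over
   `k[G][t, t⁻¹]` splits within `N`.
2. The following are equivalent: `K_{-m}(k[G]) = 0` for all algebraically closed fields `k` of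
   characteristic `0`, all `G` in `C` and all `m ≥ 1`; for all `n`, `s` there is `N` such that
   all these matrices split within `N`, for all algebraically closed fields with `char k = 0` or
   `char k ≥ N`; the same for the field of algebraic numbers; the same for the algebraic
   closures of the fields with `p` elements for all primes `p ≥ N`; the same for infinitely many
   primes `p`.
3. For a prime `p`, `K_{-m}(k[G]) = 0` for all algebraically closed fields `k` of characteristic `p`,
   all `G` in `C` and all `m ≥ 1` if and only if for all `n`, `s` there is `N` such that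
   all these matrices over the algebraic closure of the field with `p` elements split within `N`. -/
theorem result :
    Closed (fun (G : Type) [Group G] => ∀ (g : G) (n : ℕ), 0 < n → g ^ n = 1 → g = 1) ∧
    ∀ C : ∀ (G : Type) [Group G], Prop, Closed C →
      ((∀ (k : Type) [Field k], CharZero k → NegKVanish C k) ↔
        ∀ n s : ℕ, ∃ N : ℕ, ∀ (k : Type) [Field k], (ringChar k = 0 ∨ N ≤ ringChar k) →
          Bound C n s N k) ∧
      List.TFAE [
        ∀ (k : Type) [Field k], IsAlgClosed k → CharZero k → NegKVanish C k,
        ∀ n s : ℕ, ∃ N : ℕ, ∀ (k : Type) [Field k], IsAlgClosed k →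
          (ringChar k = 0 ∨ N ≤ ringChar k) → Bound C n s N k,
        ∀ n s : ℕ, ∃ N : ℕ, Bound C n s N (AlgebraicClosure ℚ),
        ∀ n s : ℕ, ∃ N : ℕ, ∀ (p : ℕ) [Fact p.Prime], N ≤ p →
          Bound C n s N (AlgebraicClosure (ZMod p)),
        ∀ n s : ℕ, ∃ N : ℕ, ∀ M : ℕ, ∃ (p : ℕ) (_ : Fact p.Prime), M ≤ p ∧
          Bound C n s N (AlgebraicClosure (ZMod p))] ∧
      ∀ (p : ℕ) [Fact p.Prime],
        ((∀ (k : Type) [Field k], IsAlgClosed k → CharP k p → NegKVanish C k) ↔
          ∀ n s : ℕ, ∃ N : ℕ, Bound C n s N (AlgebraicClosure (ZMod p))) := by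
  refine ⟨closed_torsionFree, fun C hC => ?_⟩
  have hC' : Pool.Agent.V5helper31.UB.Prevar C := ⟨hC.1, hC.2.1⟩
  exact ⟨Pool.Agent.V5helper31.UB.main_zero hC' hC.2.2,
    Pool.Agent.V5helper31.UB.main_closed hC' hC.2.2,
    fun p _ => Pool.Agent.V5helper31.UB.main_prime hC' hC.2.2 p⟩

end Pool.Agent.Results.MP_28303a_al.LefschetzPrinciple
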