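import Pool.Agent.V5helper31.NU.Main

/-!
# Negative `K`-groups of group rings of torsion-free groups: one group and one degree

There is one countable torsion-free group `U` with the following property: for every ring `A`, if
`K_{-1}(A[U])` is zero then `K_n(A[G])` is zero for all torsion-free groups `G`
and all `n ≤ -1`.

Proof. For a finite presentation with generators `X` and relators `R` let `TF X R` be its largest
torsion-free quotient. `U` is the direct sum of these groups over all finite presentations with
generators `x_1, ..., x_n`, so every `TF X R` is a retract of `U`. An element of `K_{-m}(A[G])` is a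
difference of classes of two idempotent matrices over `A[ℤᵐ × G]`; as `G` is the directed colimit
of the groups `TF S R`, `S` a finite subset of `G` and `R` a finite set of relations which hold in
`G`, these matrices lift to one of the groups `TF S R`. Finally `K_{-m-1}(A[G])` is a quotient of
`K_{-m}(A[ℤ × G])` and `ℤ × G` is torsion-free.
-/

set_option autoImplicit false

namespace Pool.Agent.Results.MP_28303a_al.UniversalTestGroup

open Pool.Agent.Y75.NK Pool.Agent.V5helper31.UT Pool.Agent.V5helper31.NU

/-- There is a countable torsion-free group `U` such that for every ring `A` the following are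
equivalent: `K_{-1}(A[U]) = 0`; `K_{-m}(A[G]) = 0` for all torsion-free groups `G` and all `m ≥ 1`.
(`Kneg m` is Bass's group `K_{-m}`, the `m`-fold contraction of `K₀`.) -/
theorem result : ∃ (U : Type) (_ : Group U), Countable U ∧
    (∀ (g : U) (n : ℕ), 0 < n → g ^ n = 1 → g = 1) ∧
    ∀ (A : Type) [Ring A],
      Subsingleton ((Kneg 1).obj (RingCat.of (MonoidAlgebra A U))) ↔
        ∀ (G : Type) [Group G], (∀ (g : G) (n : ℕ), 0 < n → g ^ n = 1 → g = 1) →
          ∀ m : ℕ, 1 ≤ m → Subsingleton ((Kneg m).obj (RingCat.of (MonoidAlgebra A G))) := by
  have htf : ∀ (g : ULift.{0} UU) (n : ℕ), 0 < n → g ^ n = 1 → g = 1 := by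
    intro g n hn hg
    apply ULift.down_injective
    exact torsionFree_UU g.down n hn (congrArg ULift.down hg)
  refine ⟨ULift.{0} UU, inferInstance, inferInstance, htf, fun A _ => ⟨fun h G _ hG m hm => ?_,
    fun h => h _ htf 1 le_rfl⟩⟩
  exact all_degrees A h m hm G hG

end Pool.Agent.Results.MP_28303a_al.UniversalTestGroup
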